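import Pool.Agent.H84.FD.S
import Pool.Agent.H42.K2.Par

/-!
# MP_1f2761, `k = 2`: rows CRU, NLS of board fd
-/

set_option autoImplicit false

namespace Pool.FD

open Finset Pool.K2 MeasureTheory

/-- indicator of a set of cells -/
noncomputable def ind36 (E : Finset (ℕ × ℕ)) (z1 z2 : ℕ) : ℝ := if (z1, z2) ∈ E then 1 else 0

theorem ind36_nonneg (E : Finset (ℕ × ℕ)) (z1 z2 : ℕ) : 0 ≤ ind36 E z1 z2 := by
  unfold ind36
  split_ifs <;> norm_num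

theorem sum_ind36 {K : ℕ} {E : Finset (ℕ × ℕ)} (hE : E ⊆ range K ×ˢ range K) :
    ∑ z1 ∈ range K, ∑ z2 ∈ range K, ind36 E z1 z2 = E.card := by
  rw [← Finset.sum_product']
  unfold ind36
  rw [Finset.sum_ite_mem, Finset.inter_eq_right.mpr hE]
  simp

theorem nrm_ind36 {K : ℕ} {E : Finset (ℕ × ℕ)} (hE : E ⊆ range K ×ˢ range K) :
    nrm K (ind36 E) = (E.card : ℝ) / (K : ℝ) ^ 2 := by
  unfold nrm
  rw [← sum_ind36 hE]
  congr 1
  refine Finset.sum_congr rfl fun z1 _ => Finset.sum_congr rfl fun z2 _ => ?_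
  unfold ind36
  split_ifs <;> norm_num

theorem omh_zero36 {K : ℕ} {E : Finset (ℕ × ℕ)} (hE : E ⊆ range K ×ˢ range K) :
    ‖omh K (ind36 E) 0 0‖ = c4 * ((E.card : ℝ) / (K : ℝ) ^ 2) := by
  have h1 : omd K (ind36 E) 0 0 = (((E.card : ℝ) / (K : ℝ) ^ 2 : ℝ) : ℂ) := by
    unfold omd
    have h2 : ∑ z₁ ∈ range K, ∑ z₂ ∈ range K, (ind36 E z₁ z₂ : ℂ) *
        ex (-((((0 : ℤ) : ℝ) * z₁ + ((0 : ℤ) : ℝ) * z₂) / K)) =
        ((∑ z1 ∈ range K, ∑ z2 ∈ range K, ind36 E z1 z2 : ℝ) : ℂ) := by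
      push_cast
      refine Finset.sum_congr rfl fun z1 _ => Finset.sum_congr rfl fun z2 _ => ?_
      simp [ex_zero]
    rw [h2, sum_ind36 hE]
    push_cast
    rfl
  unfold omh
  rw [h1]
  have h3 : ex (-((((0 : ℤ) : ℝ) + ((0 : ℤ) : ℝ)) / (2 * K))) = 1 := by
    simp [ex_zero]
  have h4 : (1 - |((0 : ℤ) : ℝ)| / K) * (1 - |((0 : ℤ) : ℝ)| / K) = 1 := by simp
  rw [h3, h4]
  have h5 := c4_pos
  rw [norm_mul, norm_mul, norm_mul, Complex.norm_real, Complex.norm_real, Real.norm_eq_abs,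
    Real.norm_eq_abs, abs_of_pos h5, abs_of_nonneg (by positivity)]
  simp

/-- the sum over the box without zero -/
theorem bx_split36 {M : Type*} [AddCommMonoid M] {K : ℕ} (hK : 0 < K) (f : ℤ × ℤ → M) :
    ∑ m ∈ bx K, f m = f 0 + ∑ m ∈ bx0 K, f m := by
  have h0 : (0 : ℤ × ℤ) ∈ bx K := by
    unfold bx
    simp only [mem_product, mem_Ioo, Prod.fst_zero, Prod.snd_zero]
    omega
  have h1 : bx0 K = (bx K).erase 0 := by
    unfold bx0
    ext m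
    simp only [mem_filter, mem_erase]
    tauto
  rw [h1, ← Finset.add_sum_erase _ _ h0]

/-- General form of (4.1) and (5.1). -/
theorem gen36 {ι : Type*} (S : Finset ι) (W x1 x2 : ι → ℝ) (hW : ∀ i ∈ S, 0 ≤ W i)
    {K : ℕ} (hK : 0 < K) {E : Finset (ℕ × ℕ)} (hE : E ⊆ range K ×ˢ range K)
    (Φ : ℤ × ℤ → ℂ) (hΦ : ∀ k, Φ k = ∑ i ∈ S, (W i : ℂ) * ex (k.1 * x1 i + k.2 * x2 i)) :
    (∑ i ∈ S, if (ix K (x1 i), ix K (x2 i)) ∈ E then W i else 0) ≤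
      7 * ((E.card : ℝ) / (K:ℝ) ^ 2) * ‖Φ 0‖ +
        13 * Real.sqrt ((E.card : ℝ) / (K:ℝ) ^ 2) * Real.sqrt (∑ k ∈ bx0 K, ‖Φ k‖ ^ 2) := by
  have hK1 : 1 ≤ K := hK
  set T : ℝ := ∑ i ∈ S, W i * omT K (ind36 E) (x1 i) (x2 i) with hT
  have h1 : (∑ i ∈ S, if (ix K (x1 i), ix K (x2 i)) ∈ E then W i else 0) ≤ T := by
    refine Finset.sum_le_sum fun i hi => ?_
    have h2 := omT_ge hK1 (ind36 E) (fun z1 _ z2 _ => ind36_nonneg E z1 z2) (x1 i) (x2 i)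
    have h3 : (if (ix K (x1 i), ix K (x2 i)) ∈ E then W i else 0) =
        W i * ind36 E (⌊(K : ℝ) * x1 i⌋ % (K : ℤ)).toNat (⌊(K : ℝ) * x2 i⌋ % (K : ℤ)).toNat := by
      unfold ind36 ix fl
      split_ifs <;> simp
    rw [h3]
    exact mul_le_mul_of_nonneg_left h2 (hW i hi)
  have h2 : (T : ℂ) = ∑ m ∈ bx K, omh K (ind36 E) m.1 m.2 * Φ m := by
    rw [hT]
    push_cast
    have e1 : ∀ i ∈ S, (W i : ℂ) * (omT K (ind36 E) (x1 i) (x2 i) : ℂ) =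
        ∑ m ∈ bx K, omh K (ind36 E) m.1 m.2 * ((W i : ℂ) * ex (m.1 * x1 i + m.2 * x2 i)) := by
      intro i _
      rw [omT_eq hK1, ← Finset.sum_product', Finset.mul_sum]
      refine Finset.sum_congr rfl fun m _ => ?_
      ring
    rw [Finset.sum_congr rfl e1, Finset.sum_comm]
    refine Finset.sum_congr rfl fun m _ => ?_
    rw [hΦ m, Finset.mul_sum]
  have h3 : T ≤ ‖omh K (ind36 E) 0 0‖ * ‖Φ 0‖ +
      ∑ m ∈ bx0 K, ‖omh K (ind36 E) m.1 m.2‖ * ‖Φ m‖ := by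
    calc T ≤ ‖(T : ℂ)‖ := by
          rw [Complex.norm_real]
          exact le_abs_self T
      _ ≤ ∑ m ∈ bx K, ‖omh K (ind36 E) m.1 m.2 * Φ m‖ := by
          rw [h2]
          exact norm_sum_le _ _
      _ = _ := by
          rw [bx_split36 hK]
          simp only [norm_mul, Prod.fst_zero, Prod.snd_zero]
  have h4 : ∑ m ∈ bx0 K, ‖omh K (ind36 E) m.1 m.2‖ * ‖Φ m‖ ≤
      Real.sqrt (∑ m ∈ bx0 K, ‖omh K (ind36 E) m.1 m.2‖ ^ 2) *
        Real.sqrt (∑ m ∈ bx0 K, ‖Φ m‖ ^ 2) :=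
    Real.sum_mul_le_sqrt_mul_sqrt _ _ _
  have hc0 := c4_pos
  have hc1 := c4_lt
  set ρ : ℝ := (E.card : ℝ) / (K : ℝ) ^ 2 with hρ
  have hρ0 : 0 ≤ ρ := by positivity
  have h5 : ∑ m ∈ bx0 K, ‖omh K (ind36 E) m.1 m.2‖ ^ 2 ≤ 4 * c4 ^ 2 * ρ := by
    have e1 := omh_sq hK1 (ind36 E)
    rw [nrm_ind36 hE, ← Finset.sum_product'] at e1
    refine le_trans ?_ e1
    refine Finset.sum_le_sum_of_subset_of_nonneg ?_ fun _ _ _ => by positivity
    unfold bx0 bx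
    exact Finset.filter_subset _ _
  have h6 : Real.sqrt (∑ m ∈ bx0 K, ‖omh K (ind36 E) m.1 m.2‖ ^ 2) ≤ 13 * Real.sqrt ρ := by
    have e1 : (4 * c4 ^ 2 * ρ) = (2 * c4) ^ 2 * ρ := by ring
    calc Real.sqrt (∑ m ∈ bx0 K, ‖omh K (ind36 E) m.1 m.2‖ ^ 2)
        ≤ Real.sqrt (4 * c4 ^ 2 * ρ) := Real.sqrt_le_sqrt h5
      _ = 2 * c4 * Real.sqrt ρ := by
          rw [e1, Real.sqrt_mul (by positivity), Real.sqrt_sq (by positivity)]
      _ ≤ 13 * Real.sqrt ρ := by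
          refine mul_le_mul_of_nonneg_right ?_ (Real.sqrt_nonneg _)
          linarith
  have h7 : ‖omh K (ind36 E) 0 0‖ ≤ 7 * ρ := by
    rw [omh_zero36 hE]
    refine mul_le_mul_of_nonneg_right ?_ hρ0
    linarith
  calc (∑ i ∈ S, if (ix K (x1 i), ix K (x2 i)) ∈ E then W i else 0) ≤ T := h1
    _ ≤ _ := h3
    _ ≤ 7 * ρ * ‖Φ 0‖ + 13 * Real.sqrt ρ * Real.sqrt (∑ k ∈ bx0 K, ‖Φ k‖ ^ 2) := by
        refine add_le_add (mul_le_mul_of_nonneg_right h7 (norm_nonneg _)) (h4.trans ?_)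
        exact mul_le_mul_of_nonneg_right h6 (Real.sqrt_nonneg _)

/-- Row CRU. -/
theorem cru : CRUStmt := by
  intro r p hp K hK E hE y s1 s2
  have h1 := gen36 (range (2 ^ r) ×ˢ range (2 ^ r)) (fun i => p i.1 i.2)
    (fun i => s1 + y * i.1) (fun i => s2 + y * i.2) (fun i _ => hp.1 i.1 i.2) hK hE
    (fun k => ex (k.1 * s1 + k.2 * s2) * phi r p (y * k.1) (y * k.2)) (by
      intro k
      unfold phi
      rw [← Finset.sum_product', Finset.mul_sum]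
      refine Finset.sum_congr rfl fun i _ => ?_
      have e : ex (k.1 * (s1 + y * i.1) + k.2 * (s2 + y * i.2)) =
          ex (k.1 * s1 + k.2 * s2) * ex (i.1 * (y * k.1) + i.2 * (y * k.2)) := by
        rw [← ex_add]
        congr 1
        ring
      rw [e]
      ring)
  rw [Finset.sum_product] at h1
  simp only [norm_mul, ex_norm, one_mul] at h1
  have h2 : ‖phi r p (y * (((0 : ℤ × ℤ).1 : ℤ) : ℝ)) (y * (((0 : ℤ × ℤ).2 : ℤ) : ℝ))‖ ≤ 1 := by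
    refine le_trans ?_ hp.2
    unfold phi
    refine (norm_sum_le _ _).trans (Finset.sum_le_sum fun n _ => (norm_sum_le _ _).trans
      (Finset.sum_le_sum fun a _ => ?_))
    rw [norm_mul, ex_norm, mul_one, Complex.norm_real, Real.norm_eq_abs,
      abs_of_nonneg (hp.1 n a)]
  have hρ0 : 0 ≤ (E.card : ℝ) / (K : ℝ) ^ 2 := by positivity
  refine h1.trans ?_
  unfold Dk
  refine add_le_add ?_ le_rfl
  calc 7 * ((E.card : ℝ) / (K:ℝ) ^ 2) * _ ≤ 7 * ((E.card : ℝ) / (K:ℝ) ^ 2) * 1 :=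
        mul_le_mul_of_nonneg_left h2 (by positivity)
    _ = _ := mul_one _

theorem fl_le36 {P : ℕ} (hP : 0 < P) (Om : ℕ → ℕ → ℝ) (hO : ∀ z1 z2, 0 ≤ Om z1 z2)
    (y s1 s2 : ℝ) (n a : ℕ) :
    Om (fl P (P * s1 + y * n)) (fl P (P * s2 + y * a)) ≤ omT P Om (s1 + y * n / P) (s2 + y * a / P) := by
  have hP0 : (P : ℝ) ≠ 0 := by
    have : P ≠ 0 := by omega
    exact_mod_cast this
  have h1 := omT_ge (P := P) hP Om (fun z1 _ z2 _ => hO z1 z2) (s1 + y * n / P) (s2 + y * a / P)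
  have e1 : (P : ℝ) * (s1 + y * n / P) = P * s1 + y * n := by field_simp
  have e2 : (P : ℝ) * (s2 + y * a / P) = P * s2 + y * a := by field_simp
  rw [e1, e2] at h1
  exact h1

theorem omT_nonneg36 (P : ℕ) (Om : ℕ → ℕ → ℝ) (hO : ∀ z1 z2, 0 ≤ Om z1 z2) (x1 x2 : ℝ) :
    0 ≤ omT P Om x1 x2 := by
  unfold omT
  refine mul_nonneg c4_pos.le (Finset.sum_nonneg fun z1 _ => Finset.sum_nonneg fun z2 _ =>
    mul_nonneg (hO z1 z2) (mul_nonneg (fe_nonneg _ _) (fe_nonneg _ _)))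

/-- Row NLS. -/
theorem nls : NLSStmt := by
  intro r p hp P hP Om hO K hK B hB y s1 s2
  have h1 := gen36 (range (2 ^ r) ×ˢ range (2 ^ r))
    (fun i => p i.1 i.2 * omT P Om (s1 + y * i.1 / P) (s2 + y * i.2 / P))
    (fun i => P * s1 + y * i.1) (fun i => P * s2 + y * i.2)
    (fun i _ => mul_nonneg (hp.1 i.1 i.2) (omT_nonneg36 P Om hO _ _)) hK hB
    (fun k => Rs r p P Om k y s1 s2) (by
      intro k
      unfold Rs
      rw [← Finset.sum_product'])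
  rw [Finset.sum_product] at h1
  refine le_trans ?_ h1
  refine Finset.sum_le_sum fun n _ => Finset.sum_le_sum fun a _ => ?_
  split_ifs
  · exact mul_le_mul_of_nonneg_left (fl_le36 hP Om hO y s1 s2 n a) (hp.1 n a)
  · exact le_rfl

end Pool.FD
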